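import Pool.Agent.Helper81.AD2.Goals

/-! Project AD2 (MP_ccb3f4_gt): CLS. -/

set_option autoImplicit false

namespace Pool.Agent.Helper12.AD2.CLS

open Pool.Agent.Helper88.AD Pool.Agent.Helper81.AD2

variable {d : ℕ}

/-- The product of the cycles of the blocks. -/
def cyc (W : List (List (Pt d))) : Equiv.Perm (Pt d) := (W.map List.formPerm).prod

theorem cyc_nil : cyc ([] : List (List (Pt d))) = 1 := rfl

theorem cyc_cons (l : List (Pt d)) (W : List (List (Pt d))) : cyc (l :: W) = l.formPerm * cyc W := by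
  unfold cyc
  rw [List.map_cons, List.prod_cons]

theorem cyc_not_mem {W : List (List (Pt d))} {p : Pt d} (h : p ∉ W.flatten) : cyc W p = p := by
  induction W with
  | nil => rfl
  | cons l W ih =>
    rw [List.flatten_cons, List.mem_append, not_or] at h
    rw [cyc_cons, Equiv.Perm.mul_apply, ih h.2]
    exact List.formPerm_apply_of_notMem h.1

theorem cyc_mem {W : List (List (Pt d))} (hn : W.flatten.Nodup) {l : List (Pt d)} (hl : l ∈ W)
    {p : Pt d} (hp : p ∈ l) : cyc W p = l.formPerm p := by
  induction W with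
  | nil => exact absurd hl (by simp)
  | cons l0 W ih =>
    rw [List.flatten_cons, List.nodup_append] at hn
    obtain ⟨h1, h2, h3⟩ := hn
    rw [cyc_cons, Equiv.Perm.mul_apply]
    by_cases hp0 : p ∈ l0
    · have h4 : p ∉ W.flatten := fun h => h3 p hp0 p h rfl
      rw [cyc_not_mem h4]
      rcases List.mem_cons.1 hl with h | h
      · rw [h]
      · exact absurd (List.mem_flatten.2 ⟨l, h, hp⟩) h4
    · rcases List.mem_cons.1 hl with h | h
      · exact absurd (h ▸ hp) hp0
      · rw [ih h2 h]
        apply List.formPerm_apply_of_notMem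
        intro h5
        have h6 : l.formPerm p ∈ l := List.formPerm_apply_mem_of_mem hp
        exact h3 _ h5 _ (List.mem_flatten.2 ⟨l, h, h6⟩) rfl

theorem cyc_in {W : List (List (Pt d))} (hn : W.flatten.Nodup) {l : List (Pt d)} (hl : l ∈ W)
    {p : Pt d} (hp : p ∈ l) : cyc W p ∈ l := by
  rw [cyc_mem hn hl hp]
  exact List.formPerm_apply_mem_of_mem hp

theorem cyc_pow {W : List (List (Pt d))} (hn : W.flatten.Nodup) {l : List (Pt d)} (hl : l ∈ W)
    {p : Pt d} (hp : p ∈ l) (k : ℕ) : (cyc W ^ k) p = (l.formPerm ^ k) p ∧ (cyc W ^ k) p ∈ l := by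
  induction k with
  | zero => exact ⟨rfl, hp⟩
  | succ k ih =>
    rw [pow_succ', pow_succ', Equiv.Perm.mul_apply, Equiv.Perm.mul_apply, ← ih.1]
    exact ⟨cyc_mem hn hl ih.2, cyc_in hn hl ih.2⟩

/-- The position of the block of a letter. -/
def bidx : List (List (Pt d)) → Pt d → ℕ
  | [], _ => 0
  | l :: W, p => if p ∈ l then 0 else bidx W p + 1

theorem bidx_mono {W : List (List (Pt d))} {p q : Pt d} (hq : q ∈ W.flatten)
    (h : W.flatten.idxOf p ≤ W.flatten.idxOf q) : bidx W p ≤ bidx W q := by
  induction W with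
  | nil => exact le_refl _
  | cons l W ih =>
    unfold bidx
    by_cases hp : p ∈ l
    · rw [if_pos hp]
      exact Nat.zero_le _
    · rw [if_neg hp]
      rw [List.flatten_cons, List.idxOf_append, List.idxOf_append, if_neg hp] at h
      by_cases hq' : q ∈ l
      · rw [if_pos hq'] at h
        have := List.idxOf_lt_length_of_mem hq'
        omega
      · rw [if_neg hq'] at h ⊢
        rw [List.flatten_cons, List.mem_append] at hq
        have := ih (hq.resolve_left hq') (by omega)
        omega

theorem bidx_eq {W : List (List (Pt d))} {p q : Pt d} (hp : p ∈ W.flatten) (hq : q ∈ W.flatten)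
    (h : bidx W p = bidx W q) : ∃ l ∈ W, p ∈ l ∧ q ∈ l := by
  induction W with
  | nil => exact absurd hp (by simp)
  | cons l W ih =>
    unfold bidx at h
    by_cases hp' : p ∈ l
    · rw [if_pos hp'] at h
      by_cases hq' : q ∈ l
      · exact ⟨l, List.mem_cons_self, hp', hq'⟩
      · rw [if_neg hq'] at h
        omega
    · rw [if_neg hp'] at h
      by_cases hq' : q ∈ l
      · rw [if_pos hq'] at h
        omega
      · rw [if_neg hq'] at h
        rw [List.flatten_cons, List.mem_append] at hp hq
        obtain ⟨l', h1, h2⟩ := ih (hp.resolve_left hp') (hq.resolve_left hq') (by omega)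
        exact ⟨l', List.mem_cons_of_mem _ h1, h2⟩

theorem bidx_congr {W : List (List (Pt d))} {p q : Pt d} (h : ∀ l ∈ W, p ∈ l ↔ q ∈ l) :
    bidx W p = bidx W q := by
  induction W with
  | nil => rfl
  | cons l W ih =>
    unfold bidx
    have h1 := ih fun l' hl' => h l' (List.mem_cons_of_mem _ hl')
    have h2 := h l List.mem_cons_self
    by_cases hp : p ∈ l
    · rw [if_pos hp, if_pos (h2.1 hp)]
    · rw [if_neg hp, if_neg (fun h' => hp (h2.2 h')), h1]

section

variable {W : List (List (Pt d))} (hW : BW W)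
include hW

theorem nodupW : W.flatten.Nodup := ((isD_iff _).1 hW.2).1

theorem memW (p : Pt d) : p ∈ W.flatten := ((isD_iff _).1 hW.2).2 p

theorem unique_block {l l' : List (Pt d)} (hl : l ∈ W) (hl' : l' ∈ W) {p : Pt d} (hp : p ∈ l)
    (hp' : p ∈ l') : l = l' := by
  have h : W.Pairwise List.Disjoint := (List.nodup_flatten.1 (nodupW hW)).2
  by_contra hne
  have h' := List.pairwise_iff_getElem.1 h
  obtain ⟨i, hi, rfl⟩ := List.mem_iff_getElem.1 hl
  obtain ⟨j, hj, rfl⟩ := List.mem_iff_getElem.1 hl'
  rcases lt_trichotomy i j with hij | hij | hij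
  · exact h' i j hi hj hij hp hp'
  · subst hij
    exact hne rfl
  · exact h' j i hj hi hij hp' hp

theorem cyc_snd (p : Pt d) : (cyc W p).2 = p.2 := by
  obtain ⟨l, hl, hp⟩ := List.mem_flatten.1 (memW hW p)
  exact (hW.1 l hl).2 _ (cyc_in (nodupW hW) hl hp) _ hp

theorem cyc_symm_snd (p : Pt d) : ((cyc W).symm p).2 = p.2 := by
  have h := cyc_snd hW ((cyc W).symm p)
  rw [Equiv.apply_symm_apply] at h
  exact h.symm

/-- The permutation of the names of the letters of type `b`. -/
def sig (b : Bool) : Equiv.Perm (Fin d) where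
  toFun i := (cyc W (i, b)).1
  invFun i := ((cyc W).symm (i, b)).1
  left_inv i := by
    have h : (((cyc W (i, b)).1, b) : Pt d) = cyc W (i, b) :=
      Prod.ext rfl (cyc_snd hW (i, b)).symm
    show ((cyc W).symm ((cyc W (i, b)).1, b)).1 = i
    rw [h, Equiv.symm_apply_apply]
  right_inv i := by
    have h : ((((cyc W).symm (i, b)).1, b) : Pt d) = (cyc W).symm (i, b) :=
      Prod.ext rfl (cyc_symm_snd hW (i, b)).symm
    show (cyc W (((cyc W).symm (i, b)).1, b)).1 = i
    rw [h, Equiv.apply_symm_apply]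

theorem sig_eq (b : Bool) (i : Fin d) : ((sig hW b i, b) : Pt d) = cyc W (i, b) :=
  Prod.ext rfl (cyc_snd hW (i, b)).symm

theorem cycc : Cycc (sig hW) (dirs W.flatten) := by
  refine ⟨bidx W, ?_, ?_⟩
  · intro i
    have hne : bidx W (i, true) ≠ bidx W (i, false) := by
      intro h
      obtain ⟨l, hl, h1, h2⟩ := bidx_eq (memW hW _) (memW hW _) h
      have := (hW.1 l hl).2 _ h1 _ h2
      simp at this
    constructor
    · intro h
      have h1 : W.flatten.idxOf (i, true) < W.flatten.idxOf (i, false) := by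
        unfold dirs at h
        exact of_decide_eq_true h
      exact lt_of_le_of_ne (bidx_mono (memW hW _) h1.le) hne
    · intro h
      have h1 : ¬ W.flatten.idxOf (i, true) < W.flatten.idxOf (i, false) := by
        unfold dirs at h
        exact of_decide_eq_false h
      exact lt_of_le_of_ne (bidx_mono (memW hW _) (not_lt.1 h1)) hne.symm
  · intro b i
    rw [sig_eq]
    apply bidx_congr
    intro l hl
    constructor
    · intro h
      obtain ⟨l', hl', hp⟩ := List.mem_flatten.1 (memW hW (i, b))
      have h1 := cyc_in (nodupW hW) hl' hp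
      rw [unique_block hW hl hl' h h1]
      exact hp
    · intro h
      exact cyc_in (nodupW hW) hl h

theorem block_get {a : Pt d} {m : List (Pt d)} (hl : (a :: m) ∈ W) (k : ℕ)
    (hk : k < (a :: m).length) : (a :: m)[k] = (cyc W ^ k) a := by
  have hn : (a :: m).Nodup := (List.nodup_flatten.1 (nodupW hW)).1 _ hl
  rw [(cyc_pow (nodupW hW) hl List.mem_cons_self k).1]
  have := List.formPerm_pow_apply_getElem (a :: m) hn k 0 (by simp)
  simp only [List.getElem_cons_zero] at this
  rw [this]
  congr 1
  rw [Nat.zero_add, Nat.mod_eq_of_lt hk]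

theorem block_len {a : Pt d} {m : List (Pt d)} (hl : (a :: m) ∈ W) :
    (cyc W ^ (a :: m).length) a = a := by
  have hn : (a :: m).Nodup := (List.nodup_flatten.1 (nodupW hW)).1 _ hl
  rw [(cyc_pow (nodupW hW) hl List.mem_cons_self _).1]
  have := List.formPerm_pow_apply_getElem (a :: m) hn (a :: m).length 0 (by simp)
  simp only [List.getElem_cons_zero, Nat.zero_add, Nat.mod_self] at this
  exact this

end

theorem len_le {W W' : List (List (Pt d))} (hW : BW W) (hW' : BW W') (he : cyc W = cyc W')
    {a : Pt d} {m m' : List (Pt d)} (hl : (a :: m) ∈ W) (hl' : (a :: m') ∈ W') :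
    (a :: m').length ≤ (a :: m).length := by
  by_contra hlt
  rw [not_le] at hlt
  have hn : (a :: m').Nodup := (List.nodup_flatten.1 (nodupW hW')).1 _ hl'
  have h1 := block_get hW' hl' _ hlt
  rw [← he, block_len hW hl] at h1
  have h2 : (a :: m')[(a :: m).length] = (a :: m')[0] := h1
  have h3 := (List.Nodup.getElem_inj_iff hn).1 h2
  simp at h3

theorem block_same {W W' : List (List (Pt d))} (hW : BW W) (hW' : BW W') (he : cyc W = cyc W')
    {a : Pt d} {m m' : List (Pt d)} (hl : (a :: m) ∈ W) (hl' : (a :: m') ∈ W') :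
    (a :: m) = (a :: m') := by
  apply List.ext_getElem
  · exact le_antisymm (len_le hW' hW he.symm hl' hl) (len_le hW hW' he hl hl')
  · intro k h1 h2
    rw [block_get hW hl k h1, block_get hW' hl' k h2, he]

theorem first_mem {W W' : List (List (Pt d))} (hW : BW W) (hW' : BW W') (he : cyc W = cyc W')
    {a a' : Pt d} {l m' : List (Pt d)} (hl : l ∈ W) (ha : a ∈ l) (hl' : (a' :: m') ∈ W')
    (ha' : a ∈ (a' :: m')) : a' ∈ l := by
  obtain ⟨k, hk, hka⟩ := List.mem_iff_getElem.1 ha'
  rw [block_get hW' hl' k hk] at hka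
  have h1 : (cyc W ^ ((a' :: m').length - k)) a = a' := by
    rw [← hka, he, ← Equiv.Perm.mul_apply, ← pow_add, Nat.sub_add_cancel hk.le]
    exact block_len hW' hl'
  rw [← h1]
  exact (cyc_pow (nodupW hW) hl ha _).2

theorem mem_of {W W' : List (List (Pt d))} (hW : BW W) (hW' : BW W') (hm : MinFirst W)
    (hm' : MinFirst W') (he : cyc W = cyc W') {l : List (Pt d)} (hl : l ∈ W) : l ∈ W' := by
  cases l with
  | nil => exact absurd rfl (hW.1 _ hl).1
  | cons a m =>
    obtain ⟨l', hl', ha⟩ := List.mem_flatten.1 (memW hW' a)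
    cases l' with
    | nil => exact absurd ha (by simp)
    | cons a' m' =>
      have h1 : a' ∈ (a :: m) := first_mem hW hW' he hl List.mem_cons_self hl' ha
      have h2 : a = a' := by
        rcases List.mem_cons.1 ha with h | h
        · exact h
        · rcases List.mem_cons.1 h1 with h' | h'
          · exact h'.symm
          · exact absurd (hm a m hl a' h') (not_lt.2 (hm' a' m' hl' a h).le)
      subst h2
      rw [block_same hW hW' he hl hl']
      exact hl'

theorem nodup_blocks {W : List (List (Pt d))} (hW : BW W) : W.Nodup := by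
  rw [List.nodup_iff_pairwise_ne]
  have h : W.Pairwise List.Disjoint := (List.nodup_flatten.1 (nodupW hW)).2
  refine (List.Pairwise.imp_of_mem ?_ h)
  intro l l' hl hl' hd hll
  subst hll
  obtain ⟨x, hx⟩ := List.exists_mem_of_ne_nil l (hW.1 l hl).1
  exact hd hx hx

theorem perm_of {W W' : List (List (Pt d))} (hW : BW W) (hW' : BW W') (hm : MinFirst W)
    (hm' : MinFirst W') (he : cyc W = cyc W') : W.Perm W' := by
  rw [List.perm_ext_iff_of_nodup (nodup_blocks hW) (nodup_blocks hW')]
  intro l
  exact ⟨fun h => mem_of hW hW' hm hm' he h, fun h => mem_of hW' hW hm' hm he.symm h⟩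

theorem cyc_of_sig {W W' : List (List (Pt d))} (hW : BW W) (hW' : BW W')
    (h : sig hW = sig hW') : cyc W = cyc W' := by
  ext1 p
  rcases p with ⟨i, b⟩
  rw [← sig_eq hW, ← sig_eq hW', h]

theorem t : S_CLS := by
  intro d
  have hch : ∀ c : Cls d, ∃ W : List (List (Pt d)), BW W ∧ MinFirst W ∧
      c.1 = (↑W, dirs W.flatten) := fun c => c.2
  choose Wc h1 h2 h3 using hch
  let g : Cls d → {p : (Bool → Equiv.Perm (Fin d)) × (Fin d → Bool) // Cycc p.1 p.2} :=
    fun c => ⟨(sig (h1 c), dirs (Wc c).flatten), cycc (h1 c)⟩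
  have hg : Function.Injective g := by
    intro c c' h
    have h4 : ((sig (h1 c), dirs (Wc c).flatten) : (Bool → Equiv.Perm (Fin d)) × (Fin d → Bool)) =
        (sig (h1 c'), dirs (Wc c').flatten) := congrArg Subtype.val h
    have h5 := (Prod.ext_iff.1 h4).1
    have h6 := (Prod.ext_iff.1 h4).2
    have h7 : (Wc c).Perm (Wc c') :=
      perm_of (h1 c) (h1 c') (h2 c) (h2 c') (cyc_of_sig (h1 c) (h1 c') h5)
    apply Subtype.ext
    rw [h3 c, h3 c']
    refine Prod.ext ?_ h6
    exact Multiset.coe_eq_coe.2 h7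
  have hf : Finite (Cls d) := Finite.of_injective g hg
  refine ⟨Set.toFinite _, ?_⟩
  rw [← Nat.card_coe_set_eq]
  exact Nat.card_le_card_of_injective g hg

end Pool.Agent.Helper12.AD2.CLS
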